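import Pool.Agent.X14.QLiu
import Pool.Agent.X14.QAndrews

/-!
# A q-analogue of Liu's supercongruence for `n ≡ 1 (mod 4)`
-/

set_option autoImplicit false

namespace Pool.Agent.Results.MP_c25fd9_nt.AllOneModFour

open Finset Polynomial

noncomputable section

/-- The indeterminate `q`, as an element of `ℚ(q)`. -/
def q : RatFunc ℚ := RatFunc.X

/-- The q-shifted factorial `(a; x)_k = (1 - a)(1 - a x) ⋯ (1 - a x^{k-1})`. -/
def qp (a x : RatFunc ℚ) (k : ℕ) : RatFunc ℚ := ∏ j ∈ range k, (1 - a * x ^ j)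

/-- The terms `a_k(q)`. -/
def a (k : ℕ) : RatFunc ℚ :=
  qp q (q ^ 2) k ^ 2 * qp (q ^ 2) (q ^ 4) k * q ^ (2 * k) / (qp (q ^ 2) (q ^ 2) k ^ 2 * qp (q ^ 4) (q ^ 4) k)

/-- The sum `S_{m,n}(q)`. -/
def S (m n : ℕ) : RatFunc ℚ := ∑ k ∈ range (m * n), a k

/-- The rational number `T_m`; here `∏_{j<k} (1/2 + j) = (1/2)_k`. -/
def T (m : ℕ) : ℚ := ∑ k ∈ range m, (∏ j ∈ range k, (1 / 2 + (j : ℚ))) ^ 3 / (k.factorial : ℚ) ^ 3

/-- The factor `C_n(q)`; here `∑_{i<n} q^i = [n]`. -/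
def C (n : ℕ) : RatFunc ℚ :=
  (∑ i ∈ range n, q ^ i) * qp (q ^ 3) (q ^ 4) ((n - 1) / 2) / qp (q ^ 5) (q ^ 4) ((n - 1) / 2)

/-- `F ≡ G (mod Φ^2)`: `F - G = Φ^2 A / B` with polynomials `A`, `B`, where `B` is coprime to
`Φ`. -/
def CongSq (Φ : ℚ[X]) (F G : RatFunc ℚ) : Prop :=
  ∃ A B : ℚ[X], IsCoprime B Φ ∧
    F - G = algebraMap ℚ[X] (RatFunc ℚ) (Φ ^ 2 * A) / algebraMap ℚ[X] (RatFunc ℚ) B

open Pool.Agent.X14 QL QBlock

lemma q_def : q = QL.q := rfl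

/-- the terms -/
def term (k : ℕ) : RatFunc ℚ := QL.q ^ (2 * k) * rr 1 k ^ 2 * rr 2 k

lemma a_eq (k : ℕ) : a k = term k := by
  have h1 : qp (q ^ 2) (q ^ 4) k = ∏ j ∈ range k, e (((2 : ℕ) : ℤ) * (2 * (j : ℤ) + 1)) := by
    unfold qp
    apply prod_congr rfl
    intro j _
    rw [show (((2 : ℕ) : ℤ) * (2 * (j : ℤ) + 1)) = ((4 * j + 2 : ℕ) : ℤ) by push_cast; ring, e_nat,
      q_def, ← pow_mul, pow_add]
    ring
  have h2 : qp (q ^ 4) (q ^ 4) k = ∏ j ∈ range k, e (((2 : ℕ) : ℤ) * (2 * (j : ℤ) + 2)) := by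
    unfold qp
    apply prod_congr rfl
    intro j _
    rw [show (((2 : ℕ) : ℤ) * (2 * (j : ℤ) + 2)) = ((4 * j + 4 : ℕ) : ℤ) by push_cast; ring, e_nat,
      q_def, ← pow_mul, pow_add]
    ring
  have h3 : qp q (q ^ 2) k = ∏ j ∈ range k, e (((1 : ℕ) : ℤ) * (2 * (j : ℤ) + 1)) := by
    unfold qp
    apply prod_congr rfl
    intro j _
    rw [show (((1 : ℕ) : ℤ) * (2 * (j : ℤ) + 1)) = ((2 * j + 1 : ℕ) : ℤ) by push_cast; ring, e_nat,
      q_def, ← pow_mul, pow_succ]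
    ring
  have h4 : qp (q ^ 2) (q ^ 2) k = ∏ j ∈ range k, e (((1 : ℕ) : ℤ) * (2 * (j : ℤ) + 2)) := by
    unfold qp
    apply prod_congr rfl
    intro j _
    rw [show (((1 : ℕ) : ℤ) * (2 * (j : ℤ) + 2)) = ((2 * j + 2 : ℕ) : ℤ) by push_cast; ring, e_nat,
      q_def, ← pow_mul, pow_add]
    ring
  unfold a term rr
  rw [prod_div_distrib, prod_div_distrib, h1, h2, h3, h4, q_def, div_pow]
  ring

variable {n h : ℕ}

/-- the deformed terms -/
lemma F_eq {μ m : ℕ} (hm : (2 * (μ : ℤ) + 1) * n = 2 * m + 1) (k : ℕ) :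
    QAndrews.F (QL.q ^ 2) m k = term k * Po 1 n (2 * μ + 1) k := by
  have hq := q_ne
  induction k with
  | zero => simp [QAndrews.F, term, rr, Po]
  | succ k ih =>
    have h1 : Po 1 n (2 * μ + 1) (k + 1) = Po 1 n (2 * μ + 1) k * rho 1 n (2 * μ + 1) (2 * (k : ℤ) + 1) := by
      unfold Po; rw [prod_range_succ]
    have h2 : ∀ s : ℕ, rr s (k + 1) = rr s k * (e (s * (2 * (k : ℤ) + 1)) / e (s * (2 * (k : ℤ) + 2))) := by
      intro s; unfold rr; rw [prod_range_succ]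
    have c0 : ∀ i : ℕ, (QL.q ^ 2) ^ i = QL.q ^ (2 * (i : ℤ)) := by
      intro i
      rw [← pow_mul, ← zpow_natCast]; congr 1
    have f1 : (QL.q ^ 2) ^ m - (QL.q ^ 2) ^ k = (QL.q ^ 2) ^ m * e (2 * (k : ℤ) + 1 - (2 * m + 1)) := by
      have h9 : QL.q ^ (2 * (k : ℤ)) = QL.q ^ (2 * (m : ℤ)) * QL.q ^ (2 * (k : ℤ) + 1 - (2 * m + 1)) := by
        rw [← zpow_add₀ hq]; congr 1; ring
      unfold e
      rw [c0, c0, h9]; ring
    have f2 : 1 - (QL.q ^ 2) ^ (m + 1 + k) = e (2 * (k : ℤ) + 1 + (2 * m + 1)) := by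
      unfold e; rw [c0]; congr 2; push_cast; ring
    have f3 : 1 - (QL.q ^ 2) ^ (2 * k + 1) = e (2 * (2 * (k : ℤ) + 1)) := by
      unfold e; rw [c0]; push_cast; rfl
    have f4 : 1 - (QL.q ^ 2) ^ (k + 1) = e (2 * (k : ℤ) + 2) := by
      unfold e; rw [c0]; congr 2
    have f5 : 1 - (QL.q ^ 2) ^ (2 * k + 2) = e (2 * (2 * (k : ℤ) + 2)) := by
      unfold e; rw [c0]; push_cast; rfl
    rw [QAndrews.F_succ, ih, h1, f1, f2, f3, f4, f5]
    unfold term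
    rw [h2, h2]
    unfold rho
    rw [hm]
    push_cast
    simp only [one_mul]
    have n1 : e (2 * (k : ℤ) + 1) ≠ 0 := e_ne (by omega)
    have n2 : e (2 * (k : ℤ) + 2) ≠ 0 := e_ne (by omega)
    have n3 : e (2 * (2 * (k : ℤ) + 2)) ≠ 0 := e_ne (by omega)
    have n4 : (QL.q ^ 2) ^ m ≠ 0 := pow_ne_zero _ (pow_ne_zero _ hq)
    rw [show 2 * (k + 1) = 2 * k + 2 by ring, pow_add]
    generalize e (2 * (k : ℤ) + 1) = o1 at *
    generalize e (2 * (k : ℤ) + 2) = v1 at *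
    generalize e (2 * (2 * (k : ℤ) + 2)) = v2 at *
    generalize e (2 * (2 * (k : ℤ) + 1)) = o2 at *
    generalize e (2 * (k : ℤ) + 1 + (2 * m + 1)) = op at *
    generalize e (2 * (k : ℤ) + 1 - (2 * m + 1)) = om at *
    generalize (QL.q ^ 2) ^ m = z at *
    field_simp

lemma hq1 (k : ℕ) : 1 - (QL.q ^ 2) ^ (k + 1) ≠ 0 := by
  rw [← pow_mul]; exact one_sub_ne (by omega)

/-- the evaluation -/
def V (n h μ : ℕ) : RatFunc ℚ := QAndrews.S (QL.q ^ 2) (n * μ + h)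

lemma exact (n μ h : ℕ) (hn : n = 2 * h + 1) :
    ∑ k ∈ range (n * (μ + 1)), term k * Po 1 n (2 * μ + 1) k = V n h μ := by
  have hmz : (2 * (μ : ℤ) + 1) * n = 2 * ((n * μ + h : ℕ) : ℤ) + 1 := by rw [hn]; push_cast; ring
  have hK : n * μ + h < n * (μ + 1) := by rw [Nat.mul_succ]; omega
  unfold V
  rw [← QAndrews.S_eq hK]
  apply sum_congr rfl
  intro k _
  rw [F_eq hmz]

/-- signed factors -/
def g2 (i : ℕ) : RatFunc ℚ := if i % 2 = 0 then e (2 * ((i : ℤ) + 1)) else (e (2 * ((i : ℤ) + 1)))⁻¹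

/-- products of signed factors -/
def GG (K : ℕ) : RatFunc ℚ := ∏ i ∈ range K, g2 i

lemma GG_eq (m : ℕ) : GG (2 * m) = ∏ j ∈ range m, ((1 - (QL.q ^ 2) ^ (2 * j + 1)) / (1 - (QL.q ^ 2) ^ (2 * j + 2))) := by
  induction m with
  | zero => simp [GG]
  | succ m ih =>
    have h1 : GG (2 * (m + 1)) = GG (2 * m) * g2 (2 * m) * g2 (2 * m + 1) := by
      unfold GG
      rw [show 2 * (m + 1) = 2 * m + 1 + 1 by ring, prod_range_succ, prod_range_succ]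
    have h2 : g2 (2 * m) = 1 - (QL.q ^ 2) ^ (2 * m + 1) := by
      unfold g2
      rw [if_pos (by omega), ← pow_mul, ← e_nat]; congr 1
    have h3 : g2 (2 * m + 1) = (1 - (QL.q ^ 2) ^ (2 * m + 2))⁻¹ := by
      unfold g2
      rw [if_neg (by omega), ← pow_mul, ← e_nat]; congr 2
    rw [h1, h2, h3, ih, prod_range_succ]
    ring

lemma V_even (hh : h % 2 = 0) (ν : ℕ) : V n h (2 * ν) = QL.q ^ (n * (2 * ν) + h) * GG (n * (2 * ν) + h) ^ 2 := by
  obtain ⟨m, hm⟩ : ∃ m, n * (2 * ν) + h = 2 * m := ⟨n * ν + h / 2, by rw [Nat.mul_add]; rw [show n * (2 * ν) = 2 * (n * ν) by ring]; omega⟩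
  unfold V
  rw [hm, QAndrews.S_even (pow_ne_zero _ q_ne) hq1, GG_eq, ← pow_mul]

lemma V_odd (hn : n = 2 * h + 1) (hh : h % 2 = 0) (ν : ℕ) : V n h (2 * ν + 1) = 0 := by
  obtain ⟨m, hm⟩ : ∃ m, n * (2 * ν + 1) + h = 2 * m + 1 := ⟨n * ν + h + h / 2, by rw [show n * (2 * ν + 1) = 2 * (n * ν) + n by ring]; omega⟩
  unfold V
  rw [hm, QAndrews.S_odd (pow_ne_zero _ q_ne) hq1]

lemma g2_block (hn : n = 2 * h + 1) (j : ℕ) :
    ∏ t ∈ range n, g2 (n * j + h + t) = g2 (n * j + h + h) *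
      ∏ b ∈ range h, (g2 (n * j + h + (h + (b + 1))) * g2 (n * j + h + (h - (b + 1)))) := by
  conv_lhs => rw [show n = 2 * h + 1 from hn]
  rw [prod_centre (fun t => g2 ((2 * h + 1) * j + h + t)) h, ← hn]

lemma g2_pair (hn : n = 2 * h + 1) (j : ℕ) {b : ℕ} (hb : b < h) :
    g2 (n * j + h + (h + (b + 1))) * g2 (n * j + h + (h - (b + 1))) =
      if (j + b) % 2 = 1 then PP 2 n (2 * ((j : ℤ) + 1)) ((b : ℤ) + 1) else (PP 2 n (2 * ((j : ℤ) + 1)) ((b : ℤ) + 1))⁻¹ := by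
  have e1 : (2 * (((n * j + h + (h + (b + 1)) : ℕ) : ℤ) + 1)) = (2 * ((j : ℤ) + 1)) * n + (2 : ℕ) * ((b : ℤ) + 1) := by
    rw [hn]; push_cast; ring
  have e2 : (2 * (((n * j + h + (h - (b + 1)) : ℕ) : ℤ) + 1)) = (2 * ((j : ℤ) + 1)) * n - (2 : ℕ) * ((b : ℤ) + 1) := by
    rw [hn]; push_cast [Nat.cast_sub (show b + 1 ≤ h by omega)]; ring
  have p0 : (n * j) % 2 = j % 2 := by rw [Nat.mul_mod, show n % 2 = 1 by omega, one_mul, Nat.mod_mod]
  unfold g2 PP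
  rw [e1, e2]
  by_cases hp : (j + b) % 2 = 1
  · rw [if_pos (by omega), if_pos (by omega), if_pos hp]
  · rw [if_neg (by omega), if_neg (by omega), if_neg hp, mul_inv]

lemma g2_mid (hn : n = 2 * h + 1) (j : ℕ) :
    g2 (n * j + h + h) = if j % 2 = 0 then e ((2 * ((j : ℤ) + 1)) * n) else (e ((2 * ((j : ℤ) + 1)) * n))⁻¹ := by
  have e1 : (2 * (((n * j + h + h : ℕ) : ℤ) + 1)) = (2 * ((j : ℤ) + 1)) * n := by rw [hn]; push_cast; ring
  have p0 : (n * j) % 2 = j % 2 := by rw [Nat.mul_mod, show n % 2 = 1 by omega, one_mul, Nat.mod_mod]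
  unfold g2
  rw [e1]
  by_cases hp : j % 2 = 0
  · rw [if_pos (by omega), if_pos hp]
  · rw [if_neg (by omega), if_neg hp]

lemma blk_even (hn : n = 2 * h + 1) (j : ℕ) (hj : j % 2 = 0) :
    ∏ t ∈ range n, g2 (n * j + h + t) = e ((2 * ((j : ℤ) + 1)) * n) * DD 2 n h (2 * ((j : ℤ) + 1)) := by
  rw [g2_block hn, g2_mid hn, if_pos hj]
  congr 1
  unfold DD
  apply prod_congr rfl
  intro b hb
  rw [g2_pair hn j (mem_range.1 hb)]
  by_cases hp : b % 2 = 1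
  · rw [if_pos (by omega), if_pos hp]
  · rw [if_neg (by omega), if_neg hp]

lemma blk_odd (hn : n = 2 * h + 1) (j : ℕ) (hj : j % 2 = 1) :
    ∏ t ∈ range n, g2 (n * j + h + t) = (e ((2 * ((j : ℤ) + 1)) * n))⁻¹ * (DD 2 n h (2 * ((j : ℤ) + 1)))⁻¹ := by
  rw [g2_block hn, g2_mid hn, if_neg (by omega)]
  congr 1
  unfold DD
  rw [← prod_inv_distrib]
  apply prod_congr rfl
  intro b hb
  rw [g2_pair hn j (mem_range.1 hb)]
  by_cases hp : b % 2 = 1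
  · rw [if_neg (by omega), if_pos hp]
  · rw [if_pos (by omega), if_neg hp, inv_inv]

lemma GG_step (n h ν : ℕ) : GG (n * (2 * (ν + 1)) + h) = GG (n * (2 * ν) + h) *
    ((∏ t ∈ range n, g2 (n * (2 * ν) + h + t)) * ∏ t ∈ range n, g2 (n * (2 * ν + 1) + h + t)) := by
  have h1 : n * (2 * (ν + 1)) + h = n * (2 * ν) + h + (n + n) := by ring
  have h2 : ∀ t, g2 (n * (2 * ν) + h + (n + t)) = g2 (n * (2 * ν + 1) + h + t) := by
    intro t; congr 1; ring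
  unfold GG
  rw [h1, prod_range_add, prod_range_add _ n n]
  simp only [h2]

lemma V_step (hn : n = 2 * h + 1) (hh : h % 2 = 0) (ν : ℕ) :
    V n h (2 * (ν + 1)) = V n h (2 * ν) * ((QL.q ^ n) ^ (2 : ℤ) *
      ((Gz (QL.q ^ n) (4 * (ν : ℤ) + 2) / Gz (QL.q ^ n) (4 * (ν : ℤ) + 4)) *
      (DD 2 n h (4 * (ν : ℤ) + 2) / DD 2 n h (4 * (ν : ℤ) + 4))) ^ 2) := by
  have hn0 : 0 < n := by omega
  obtain ⟨hx, hx0, hx1, hxi⟩ := x_props (n := n) (s := 1) hn0 one_pos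
  rw [one_mul] at hx hx0 hx1 hxi
  have eG : ∀ z : ℤ, e (z * n) = (1 - QL.q ^ n) * Gz (QL.q ^ n) z := by
    intro z
    have := e_Gz (n := n) (s := 1) hn0 one_pos z
    push_cast at this
    rwa [one_mul, one_mul] at this
  have hGne : ∀ z : ℤ, z ≠ 0 → Gz (QL.q ^ n) z ≠ 0 := by
    intro z hz0 h0
    have h1 := eG z
    rw [h0, mul_zero] at h1
    have h2 : (n : ℤ) ≠ 0 := by omega
    exact e_ne (mul_ne_zero hz0 h2) h1
  rw [V_even hh, V_even hh, GG_step, blk_even hn (2 * ν) (by omega), blk_odd hn (2 * ν + 1) (by omega)]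
  have c1 : (2 * (((2 * ν : ℕ) : ℤ) + 1)) = 4 * (ν : ℤ) + 2 := by push_cast; ring
  have c2 : (2 * (((2 * ν + 1 : ℕ) : ℤ) + 1)) = 4 * (ν : ℤ) + 4 := by push_cast; ring
  have c3 : QL.q ^ (n * (2 * (ν + 1)) + h) = QL.q ^ (n * (2 * ν) + h) * (QL.q ^ n) ^ (2 : ℤ) := by
    rw [show (2 : ℤ) = ((2 : ℕ) : ℤ) by norm_num, zpow_natCast, ← pow_mul, ← pow_add]; congr 1; ring
  rw [c1, c2, c3, eG, eG]
  have g3 := hGne (4 * (ν : ℤ) + 4) (by omega)
  have d2 := DD_ne (n := n) (s := 2) hn (QLiu.cop2 hn) (4 * (ν : ℤ) + 4)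
  generalize DD 2 n h (4 * (ν : ℤ) + 4) = D2 at *
  generalize DD 2 n h (4 * (ν : ℤ) + 2) = D1 at *
  generalize Gz (QL.q ^ n) (4 * (ν : ℤ) + 4) = G2 at *
  generalize Gz (QL.q ^ n) (4 * (ν : ℤ) + 2) = G1 at *
  generalize (1 - QL.q ^ n : RatFunc ℚ) = x1 at *
  field_simp

/-- the classical values -/
def v (μ : ℕ) : ℚ := if μ % 2 = 0 then (∏ j ∈ range (μ / 2), ((2 * (j : ℚ) + 1) / (2 * j + 2))) ^ 2 else 0

lemma V_zero (hh : h % 2 = 0) : V n h 0 = (DD 2 n h 0)⁻¹ := by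
  have h0 := V_even (n := n) hh 0
  rw [mul_zero, mul_zero, zero_add] at h0
  rw [h0]
  obtain ⟨m, hm⟩ : ∃ m, h = 2 * m := ⟨h / 2, by omega⟩
  have key : QL.q ^ h * GG h ^ 2 * DD 2 n h 0 = 1 := by
    rw [hm]
    clear h0 hh hm
    induction m with
    | zero => simp [GG, DD]
    | succ m ih =>
      have h1 : GG (2 * (m + 1)) = GG (2 * m) * g2 (2 * m) * g2 (2 * m + 1) := by
        unfold GG
        rw [show 2 * (m + 1) = 2 * m + 1 + 1 by ring, prod_range_succ, prod_range_succ]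
      have h2 : DD 2 n (2 * (m + 1)) 0 = DD 2 n (2 * m) 0 * (PP 2 n 0 (((2 * m : ℕ) : ℤ) + 1))⁻¹ * PP 2 n 0 (((2 * m + 1 : ℕ) : ℤ) + 1) := by
        unfold DD
        rw [show 2 * (m + 1) = 2 * m + 1 + 1 by ring, prod_range_succ, prod_range_succ, if_neg (by omega), if_pos (by omega)]
      have h3 : ∀ b : ℤ, PP 2 n 0 b = -((QL.q ^ (2 * b))⁻¹ * e (2 * b) ^ 2) := by
        intro b
        unfold PP
        have := e_neg (2 * b)
        push_cast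
        rw [zero_mul, zero_add, zero_sub, this]; ring
      have h4 : g2 (2 * m) = e (2 * (((2 * m : ℕ) : ℤ) + 1)) := by unfold g2; rw [if_pos (by omega)]
      have h5 : g2 (2 * m + 1) = (e (2 * (((2 * m + 1 : ℕ) : ℤ) + 1)))⁻¹ := by unfold g2; rw [if_neg (by omega)]
      have h6 : QL.q ^ (2 * (((2 * m + 1 : ℕ) : ℤ) + 1)) = QL.q ^ (2 * (((2 * m : ℕ) : ℤ) + 1)) * QL.q ^ 2 := by
        rw [← zpow_natCast QL.q 2, ← zpow_add₀ q_ne]; congr 1
      have n1 : e (2 * (((2 * m : ℕ) : ℤ) + 1)) ≠ 0 := e_ne (by omega)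
      have n2 : e (2 * (((2 * m + 1 : ℕ) : ℤ) + 1)) ≠ 0 := e_ne (by omega)
      have n3 : QL.q ^ (2 * (((2 * m : ℕ) : ℤ) + 1)) ≠ 0 := zpow_ne_zero _ q_ne
      have n4 := q_ne
      rw [h1, h2, h3, h3, h4, h5, h6, show 2 * (m + 1) = 2 * m + 2 by ring, pow_add]
      generalize e (2 * (((2 * m : ℕ) : ℤ) + 1)) = E1 at *
      generalize e (2 * (((2 * m + 1 : ℕ) : ℤ) + 1)) = E2 at *
      generalize QL.q ^ (2 * (((2 * m : ℕ) : ℤ) + 1)) = Y at *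
      generalize GG (2 * m) = G at *
      generalize DD 2 n (2 * m) 0 = D at *
      generalize QL.q ^ (2 * m) = Z at *
      field_simp
      exact ih
  exact eq_inv_of_mul_eq_one_left key

lemma V_eqm (hn : n = 2 * h + 1) (hh : h % 2 = 0) (μ : ℕ) :
    Eqm (cyclotomic n ℚ) 2 (V n h μ) ((DD 2 n h 0)⁻¹ * (v μ : ℚ)) := by
  have hn0 : 0 < n := by omega
  obtain ⟨hx, hx0, hx1, hxi⟩ := x_props (n := n) (s := 1) hn0 one_pos
  rw [one_mul] at hx hx0 hx1 hxi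
  have hD := (QLiu.DD_mem hn (s := 2) (QLiu.cop2 hn) 0).2
  rcases Nat.mod_two_eq_zero_or_one μ with h2 | h2
  · obtain ⟨ν, rfl⟩ : ∃ ν, μ = 2 * ν := ⟨μ / 2, by omega⟩
    have hv : v (2 * ν) = (∏ j ∈ range ν, ((2 * (j : ℚ) + 1) / (2 * j + 2))) ^ 2 := by
      unfold v; rw [if_pos (by omega), show 2 * ν / 2 = ν by omega]
    rw [hv]
    clear h2 hv
    induction ν with
    | zero =>
      rw [mul_zero, V_zero hh]
      simp only [range_zero, prod_empty, one_pow, Rat.cast_one, mul_one]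
      exact Eqm.refl _
    | succ ν ih =>
      have hT : Eqm (cyclotomic n ℚ) 2 ((QL.q ^ n) ^ (2 : ℤ) *
          ((Gz (QL.q ^ n) (4 * (ν : ℤ) + 2) / Gz (QL.q ^ n) (4 * (ν : ℤ) + 4)) *
          (DD 2 n h (4 * (ν : ℤ) + 2) / DD 2 n h (4 * (ν : ℤ) + 4))) ^ 2) ((((2 * (ν : ℚ) + 1) / (2 * ν + 2)) ^ 2 : ℚ) : RatFunc ℚ) := by
        have t1 := Ap_zpow hx hx0 hxi 2
        have t4 := (Ap_Gz hx hx0 hx1 hxi (4 * (ν : ℤ) + 2)).div hx (s := ((4 * (ν : ℤ) + 4 : ℤ) : ℚ)) (by positivity) (Ap_Gz hx hx0 hx1 hxi (4 * (ν : ℤ) + 4))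
        have t5 := Ap.of_U (ε := QL.q ^ n - 1) (DD_U (s := 2) hn hh (QLiu.cop2 hn) (4 * (ν : ℤ) + 2) (4 * (ν : ℤ) + 4))
        have t6 := t4.mul hx t5
        have t := t1.mul hx (t6.mul hx t6)
        rw [← pow_two] at t
        refine Ap.eqm (t.congr ?_ ?_)
        · push_cast
          field_simp
          ring
        · push_cast; ring
      rw [V_step hn hh]
      have h5 := ih.mul hT ((Loc _).mul_mem hD (rat_mem _ _)) (rat_mem _ _)
      convert h5 using 1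
      rw [prod_range_succ]
      push_cast
      ring
  · obtain ⟨ν, rfl⟩ : ∃ ν, μ = 2 * ν + 1 := ⟨μ / 2, by omega⟩
    have hv : v (2 * ν + 1) = 0 := by unfold v; rw [if_neg (by omega)]
    rw [hv, V_odd hn hh, Rat.cast_zero, mul_zero]
    exact Eqm.refl _

lemma term_mem (hn : n = 2 * h + 1) (J : ℕ) {l : ℕ} (hl : l < n) :
    term (n * J + l) ∈ Loc (cyclotomic n ℚ) ∧ (h < l → QO (cyclotomic n ℚ) 2 (term (n * J + l))) := by
  obtain ⟨h1, h2⟩ := rr_mem (s := 1) hn one_pos (Nat.coprime_one_left n) J hl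
  obtain ⟨h3, h4⟩ := rr_mem (s := 2) hn (by norm_num) (QLiu.cop2 hn) J hl
  have hm : QL.q ^ (2 * (n * J + l)) ∈ Loc (cyclotomic n ℚ) := (Loc _).pow_mem (q_mem _) _
  refine ⟨(Loc _).mul_mem ((Loc _).mul_mem hm ((Loc _).pow_mem h1 2)) h3, fun hl' => ?_⟩
  unfold term
  have h5 : QO (cyclotomic n ℚ) 2 (rr 1 (n * J + l) ^ 2) := by
    rw [pow_two]; exact (h2 hl').mul (h2 hl')
  exact QO.mul_right (QO.mul_left hm h5) h3

lemma term_one (J : ℕ) : Eqm (cyclotomic 1 ℚ) 1 (term J) (QLiu.b J : ℚ) := by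
  unfold term QLiu.b
  have h1 := (rr_one (s := 1) one_pos J).pow (rat_mem _ _) 2
  have h2 := rr_one (s := 2) (by norm_num) J
  have h5 := ((QLiu.q_pow_one (2 * J)).mul h1 (Loc _).one_mem ((Loc _).pow_mem (rat_mem _ _) 2)).mul h2
    (by rw [one_mul]; exact (Loc _).pow_mem (rat_mem _ _) 2) (rat_mem _ _)
  convert h5 using 1
  push_cast
  ring

lemma classical (μ : ℕ) : ∑ J ∈ range (μ + 1), wo (2 * (μ : ℤ) + 1) J * QLiu.b J = v μ := by
  have h0 := exact 1 μ 0 (by norm_num)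
  rw [one_mul] at h0
  refine eval_one h0 (fun j _ => term_one j) (fun j _ => ?_) ?_
  · have := (Po_eqm (n := 1) (h := 0) (s := 1) (by norm_num) one_pos (Nat.coprime_one_left 1) (2 * (μ : ℤ) + 1) j (l := 0) le_rfl).le (show 1 ≤ 2 by norm_num)
    rwa [one_mul, add_zero] at this
  · have h1 := (V_eqm (n := 1) (h := 0) (by norm_num) (by norm_num) μ).le (show 1 ≤ 2 by norm_num)
    have h2 : (DD 2 1 0 0) = 1 := by unfold DD; simp
    rwa [h2, inv_one, one_mul] at h1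

/-- the blocks -/
theorem blocks (hn : n = 2 * h + 1) (hh : h % 2 = 0) (J : ℕ) :
    Eqm (cyclotomic n ℚ) 2 (∑ l ∈ range n, term (n * J + l)) ((DD 2 n h 0)⁻¹ * (QLiu.b J : ℚ)) := by
  refine tri (w := fun μ J => wo (2 * (μ : ℤ) + 1) J) (b := QLiu.b) (v := v) (V := V n h)
    (B := fun J => ∑ l ∈ range n, term (n * J + l)) ?_ classical (V_eqm hn hh) ?_ J
  · intro μ
    have h1 := block_main (P := cyclotomic n ℚ) (k := 2) (n := n) (term := term) (W := Po 1 n (2 * μ + 1)) (h := h) (μ := μ)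
      (w := fun J => wo (2 * (μ : ℤ) + 1) J)
      (fun J l hl => (term_mem hn J hl).1) (fun J l hl hl' => (term_mem hn J hl').2 hl)
      (fun J l _ hl => Po_mem (by omega) one_pos (Nat.coprime_one_left n) _ _)
      (fun J l _ hl _ => Po_eqm hn one_pos (Nat.coprime_one_left n) _ J hl)
    rw [exact n μ h hn] at h1
    exact h1.symm
  · intro μ
    exact wo_ne (fun i hi => by omega) (by omega)

lemma C_eq (hn : n = 2 * h + 1) (hh : h % 2 = 0) : C n = (DD 2 n h 1)⁻¹ := by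
  have h1 : QLiu.FF n = (e (n : ℤ))⁻¹ * (DD 2 n h 1)⁻¹ := by
    have h2 := QLiu.FF_blocks n 1 0
    rw [add_zero, range_zero, prod_empty, mul_one, prod_range_one, QLiu.block_even hn hh 0 (by norm_num)] at h2
    simpa using h2
  have h2 := QLiu.FF_eq h
  rw [← hn, h1] at h2
  have h3 : qp (q ^ 3) (q ^ 4) h = ∏ j ∈ range h, e (4 * (j : ℤ) + 3) := by
    unfold qp
    apply prod_congr rfl
    intro j _
    rw [show (4 * (j : ℤ) + 3) = ((4 * j + 3 : ℕ) : ℤ) by push_cast; ring, e_nat, q_def, ← pow_mul, pow_add]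
    ring
  have h4 : qp (q ^ 5) (q ^ 4) h = ∏ j ∈ range h, e (4 * (j : ℤ) + 5) := by
    unfold qp
    apply prod_congr rfl
    intro j _
    rw [show (4 * (j : ℤ) + 5) = ((4 * j + 5 : ℕ) : ℤ) by push_cast; ring, e_nat, q_def, ← pow_mul, pow_add]
    ring
  have h5 : (∑ i ∈ range n, q ^ i) * (1 - q) = e (n : ℤ) := by
    have := geom_sum_mul q n
    rw [e_nat, ← q_def]
    linear_combination -this
  have h6 : (1 - q : RatFunc ℚ) ≠ 0 := by
    have := one_sub_ne (j := 1) one_pos; rwa [pow_one] at this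
  have h7 : e (n : ℤ) ≠ 0 := e_ne (by omega)
  have h8 : ∏ j ∈ range h, e (4 * (j : ℤ) + 5) ≠ 0 := by
    rw [prod_ne_zero_iff]; intro j _; exact e_ne (by omega)
  unfold C
  rw [show (n - 1) / 2 = h by omega, h3, h4]
  have h9 : (∑ i ∈ range n, q ^ i) = e (n : ℤ) / (1 - q) := by rw [eq_div_iff h6]; exact h5
  rw [h9]
  rw [← q_def] at h2
  have h10 : (DD 2 n h 1)⁻¹ = e (n : ℤ) * ((e (n : ℤ))⁻¹ * (DD 2 n h 1)⁻¹) := by
    rw [← mul_assoc, mul_inv_cancel₀ h7, one_mul]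
  rw [h10, h2]
  field_simp

lemma congSq_of_QO {Φ : ℚ[X]} (hΦ : ¬ IsUnit Φ) {F G : RatFunc ℚ} (h : QO Φ 2 (F - G)) : CongSq Φ F G := by
  obtain ⟨y, ⟨a, b, h1, h2⟩, h3⟩ := h
  refine ⟨a, b, h1, ?_⟩
  have hb : b ≠ 0 := by
    rintro rfl
    exact hΦ (isCoprime_zero_left.1 h1)
  rw [eq_div_iff (al_ne hb), h3, map_mul, map_pow, mul_assoc, h2]

lemma T_eq (m : ℕ) : (T m : ℚ) = ∑ k ∈ range m, QLiu.b k := by
  unfold T
  apply sum_congr rfl
  intro k hk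
  clear hk
  unfold QLiu.b
  rw [← div_pow]
  congr 1
  induction k with
  | zero => simp
  | succ k ih =>
    rw [prod_range_succ, prod_range_succ, ← ih, Nat.factorial_succ]
    have h1 : (k.factorial : ℚ) ≠ 0 := by exact_mod_cast Nat.factorial_ne_zero k
    have h2 : ((k : ℚ) + 1) ≠ 0 := by positivity
    have h3 : (2 * (k : ℚ) + 2) ≠ 0 := by positivity
    push_cast
    field_simp
    ring

/-- **Full positive answer to Q1.** -/
theorem result (m n : ℕ) (hn1 : 1 < n) (hn4 : n % 4 = 1) :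
    CongSq (cyclotomic n ℚ) (S m n) (C n * ((T m : ℚ) : RatFunc ℚ)) := by
  obtain ⟨h, hn⟩ : ∃ h, n = 2 * h + 1 := ⟨n / 2, by omega⟩
  have hh : h % 2 = 0 := by omega
  apply congSq_of_QO (cyclotomic.irreducible_rat (by omega)).not_isUnit
  have hD1 := (QLiu.DD_mem hn (s := 2) (QLiu.cop2 hn) 1).2
  have h0 : Eqm (cyclotomic n ℚ) 2 (DD 2 n h 0)⁻¹ (DD 2 n h 1)⁻¹ := by
    have h1 := QO.mul_left hD1 (DD_U (s := 2) hn hh (QLiu.cop2 hn) 1 0)
    have n1 := DD_ne (n := n) (s := 2) hn (QLiu.cop2 hn) 1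
    have n0 := DD_ne (n := n) (s := 2) hn (QLiu.cop2 hn) 0
    unfold Eqm
    convert h1 using 1
    field_simp
  have h1 := Eqm.sum (P := cyclotomic n ℚ) (k := 2) (s := range m) (f := fun J => ∑ l ∈ range n, term (n * J + l))
    (g := fun J => (DD 2 n h 0)⁻¹ * (QLiu.b J : ℚ)) (fun J _ => blocks hn hh J)
  rw [← mul_sum] at h1
  have h2 := h1.trans (h0.mul (Eqm.refl (P := cyclotomic n ℚ) (k := 2) (∑ J ∈ range m, ((QLiu.b J : ℚ) : RatFunc ℚ))) hD1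
    ((Loc _).sum_mem (fun J _ => rat_mem _ _)))
  have h3 : S m n = ∑ J ∈ range m, ∑ l ∈ range n, term (n * J + l) := by
    unfold S
    rw [mul_comm m n]
    simp only [a_eq]
    rw [sum_range_blocks]
  rw [h3, C_eq hn hh, T_eq]
  push_cast
  exact h2

end

end Pool.Agent.Results.MP_c25fd9_nt.AllOneModFour
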